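import Pool.Agent.H14F.FinB
import Pool.Agent.H14F.DEG
import Pool.Agent.H14F.ELS
import Pool.Agent.H14F.NORAT
import Pool.Agent.H14F.BM
import Pool.Agent.H14F.ALG

/-!
# Rational points are decided for 100% of all curves `y² = f(x) g(x)`, `f`, `g` quadratic

There is one partial computable function `φ` on the polynomials in two variables with integer coefficients
(lists of coefficient lists) which answers correctly, whenever it halts, whether the polynomial has
infinitely many rational zeros, and which halts on all but at most `C H⁶ (log H)^(-2/25)` of the curves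
`y² = (a₀ x² + a₁ x + a₂)(b₀ x² + b₁ x + b₂)` with `|a_i|, |b_i| ≤ H`; for these it proves that they have no
rational points. At least `c H⁶` of these curves are smooth of genus one and have points over `ℝ` and over all
fields `ℚ_p`, `c > 0`. So 100% of the everywhere locally soluble curves of this six-parameter family violate the
Hasse principle, and one algorithm proves it. For the same pairs and for all nonconstant `F ∈ ℤ[x]`
simultaneously the curves `y² = f(F(x)) g(F(x))` have empty Brauer-Manin sets.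

The proof. The rational points come from the coverings `f(x, w) = t u²`, `g(x, w) = t v²`, `t ∣ res(f, g)`
squarefree, and we look for obstructions modulo `p²` at the primes `p` which divide exactly once the
discriminant of `f` or of `g`: there the genus character of `f` must be `(t/p)`. The number of the coverings is
not bounded: `|t|` may be as large as `H⁴`; a duality `t t' = res(f, g) m²` reduces to `|t| ≤ 3 H²`. For given
`t` the pairs `(f, g)` with the common zeros modulo `t` lie in lattices `Λ × Λ`, `Λ ⊂ ℤ³` of index `|t|`, in which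
Brun's sieve works if `Λ` is not too skew; the skew lattices are counted by their dual vectors. The number of
the squarefree divisors of `res(f, g)` is `(log H)^(log 2)` typically, and the sum over `t` costs a further
factor `log H`, so the sieve is applied with weights `(18/25)^ω(res)`, together with a bound for the number of
pairs with more than `(36/25) log log H` prime divisors of the resultant; the resulting exponents
`-0.0869` and `-0.0851` are both negative.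

The parts of the proof (files `H14F/*.lean`) were written by the seats helper12, helper14, helper19, helper20,
helper32, helper33, helper34, helper45, helper58, helper59, helper66, helper67, helper73, helper91 and others.
-/

set_option autoImplicit false

namespace Pool.Agent.Results.MP_d6ddbd_nt.AllPairsOfForms

open Polynomial Pool.Agent.W313.BMX

open scoped Classical

/-- the set of the rational zeros of `∑ L_(i,j) x^i y^j` -/
def Zeros (L : List (List ℤ)) : Set (ℚ × ℚ) := {p : ℚ × ℚ |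
  ∑ i ∈ Finset.range L.length, ∑ j ∈ Finset.range (L.getD i []).length,
    (((L.getD i []).getD j 0 : ℤ) : ℚ) * p.1 ^ i * p.2 ^ j = 0}

/-- the polynomial `y² - (a₀ x² + a₁ x + a₂)(b₀ x² + b₁ x + b₂)` -/
def curve (a b : Fin 3 → ℤ) : List (List ℤ) :=
  [[-(a 2 * b 2), 0, 1], [-(a 1 * b 2 + a 2 * b 1)], [-(a 0 * b 2 + a 1 * b 1 + a 2 * b 0)],
    [-(a 0 * b 1 + a 1 * b 0)], [-(a 0 * b 0)]]

/-- the value of the form `a₀ x² + a₁ x w + a₂ w²` -/
def form {K : Type} [Field K] (a : Fin 3 → ℤ) (x w : K) : K :=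
  (a 0 : K) * x ^ 2 + (a 1 : K) * x * w + (a 2 : K) * w ^ 2

/-- The curve `y² = f(x, w) g(x, w)` (in the weighted projective plane) has a point over the field `K`. -/
def Soluble (a b : Fin 3 → ℤ) (K : Type) [Field K] : Prop :=
  ∃ x w y : K, (x ≠ 0 ∨ w ≠ 0) ∧ y ^ 2 = form a x w * form b x w

/-- the polynomials `f(F)` and `g(F)` -/
noncomputable def factors (F : ℤ[X]) (a b : Fin 3 → ℤ) : Fin 2 → ℤ[X] :=
  ![C (a 0) * F ^ 2 + C (a 1) * F + C (a 2), C (b 0) * F ^ 2 + C (b 1) * F + C (b 2)]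

/-- `y² = f(x) g(x)` is a smooth curve of genus one, the polynomial `f g` has degree four and no multiple
factors, and the curve has points over `ℝ` and over all fields `ℚ_p`. -/
def Good (a b : Fin 3 → ℤ) : Prop :=
  a 0 ≠ 0 ∧ b 0 ≠ 0 ∧ Squarefree ((factors X a b 0 * factors X a b 1).map (Int.castRingHom ℚ)) ∧
    Soluble a b ℝ ∧ ∀ (p : ℕ) [Fact p.Prime], Soluble a b ℚ_[p]

/-- Every adelic point of the curve `y² = f(F(x)) g(F(x))` is obstructed by one of the classes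
`(f(F), e)` of the Brauer group: the number of the places at which the value of the class is not trivial is
odd (and finite), the sum of the invariants is `1/2`. -/
def Obstructed (F : ℤ[X]) (a b : Fin 3 → ℤ) : Prop :=
  ∀ P : AdelicPoint (factors F a b) 1, ∃ e : ℤ, e ≠ 0 ∧ Odd (ram (values P 0) e).ncard

/-- the number of the pairs `(a, b)` with all `|a_i|, |b_i| ≤ H` with the property `P` -/
noncomputable def count (H : ℕ) (P : (Fin 3 → ℤ) → (Fin 3 → ℤ) → Prop) : ℕ :=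
  (((Fintype.piFinset fun _ => Finset.Icc (-(H : ℤ)) H) ×ˢ
    (Fintype.piFinset fun _ => Finset.Icc (-(H : ℤ)) H)).filter
      fun p : (Fin 3 → ℤ) × (Fin 3 → ℤ) => P p.1 p.2).card

theorem zeros_curve (a b : Fin 3 → ℤ) (p : ℚ × ℚ) :
    p ∈ Zeros (curve a b) ↔ p.2 ^ 2 = form a p.1 1 * form b p.1 1 := by
  unfold Zeros curve form
  simp only [Set.mem_ofPred_eq, List.length_cons, List.length_nil, Finset.sum_range_succ,
    Finset.sum_range_zero, List.getD_cons_zero, List.getD_cons_succ, List.getD_nil]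
  push_cast
  constructor
  · intro h
    linear_combination h
  · intro h
    linear_combination h

theorem count_eq (H : ℕ) (P : (Fin 3 → ℤ) → (Fin 3 → ℤ) → Prop) : count H P =
    ((Pool.Agent.H14F.box H ×ˢ Pool.Agent.H14F.box H).filter
      fun p : (Fin 3 → ℤ) × (Fin 3 → ℤ) => P p.1 p.2).card := rfl

theorem count_le {H : ℕ} {P Q : (Fin 3 → ℤ) → (Fin 3 → ℤ) → Prop} (h : ∀ a b, P a b → Q a b) :
    count H P ≤ count H Q := by
  unfold count
  refine Finset.card_le_card fun p hp => ?_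
  rw [Finset.mem_filter] at hp ⊢
  exact ⟨hp.1, h _ _ hp.2⟩

theorem count_split {H : ℕ} {P Q R : (Fin 3 → ℤ) → (Fin 3 → ℤ) → Prop}
    (h : ∀ a b, P a b → Q a b ∨ R a b) : count H P ≤ count H Q + count H R := by
  unfold count
  refine le_trans (Finset.card_le_card ?_) (Finset.card_union_le _ _)
  intro p hp
  have hp := Finset.mem_filter.1 hp
  refine Finset.mem_union.2 ?_
  rcases h p.1 p.2 hp.2 with h | h
  · exact Or.inl (Finset.mem_filter.2 ⟨hp.1, h⟩)
  · exact Or.inr (Finset.mem_filter.2 ⟨hp.1, h⟩)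

theorem sqf_of {a b : Fin 3 → ℤ} (ha : Pool.Agent.H14F.disc a ≠ 0)
    (hb : Pool.Agent.H14F.disc b ≠ 0) (hr : Pool.Agent.H14F.res a b ≠ 0) :
    Squarefree ((factors X a b 0 * factors X a b 1).map (Int.castRingHom ℚ)) := by
  have e0 : (factors X a b 0 * factors X a b 1).map (Int.castRingHom ℚ) =
      (C ((a 0 : ℤ) : ℚ) * X ^ 2 + C ((a 1 : ℤ) : ℚ) * X + C ((a 2 : ℤ) : ℚ)) *
      (C ((b 0 : ℤ) : ℚ) * X ^ 2 + C ((b 1 : ℤ) : ℚ) * X + C ((b 2 : ℤ) : ℚ)) := by
    simp [factors]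
  rw [e0]
  have hsep : ∀ a : Fin 3 → ℤ, Pool.Agent.H14F.disc a ≠ 0 →
      (C ((a 0 : ℤ) : ℚ) * X ^ 2 + C ((a 1 : ℤ) : ℚ) * X + C ((a 2 : ℤ) : ℚ)).Separable := by
    intro a ha
    have hd : ((Pool.Agent.H14F.disc a : ℤ) : ℚ) ≠ 0 := by exact_mod_cast ha
    refine ⟨C (-4 * ((a 0 : ℤ) : ℚ) / ((Pool.Agent.H14F.disc a : ℤ) : ℚ)),
      C (1 / ((Pool.Agent.H14F.disc a : ℤ) : ℚ)) *
        (C (2 * ((a 0 : ℤ) : ℚ)) * X + C ((a 1 : ℤ) : ℚ)), ?_⟩
    have hder : derivative (C ((a 0 : ℤ) : ℚ) * X ^ 2 + C ((a 1 : ℤ) : ℚ) * X + C ((a 2 : ℤ) : ℚ)) =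
        C (2 * ((a 0 : ℤ) : ℚ)) * X + C ((a 1 : ℤ) : ℚ) := by
      simp only [derivative_add, derivative_mul, derivative_C, derivative_X_pow, derivative_X,
        map_mul, map_ofNat, C_ofNat, Nat.cast_ofNat]
      ring
    rw [hder]
    have e1 : C (-4 * ((a 0 : ℤ) : ℚ) / ((Pool.Agent.H14F.disc a : ℤ) : ℚ)) =
        C (1 / ((Pool.Agent.H14F.disc a : ℤ) : ℚ)) * C (-4 * ((a 0 : ℤ) : ℚ)) := by
      rw [← C_mul]
      congr 1
      field_simp
    rw [e1]
    have e2 : C (-4 * ((a 0 : ℤ) : ℚ)) *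
        (C ((a 0 : ℤ) : ℚ) * X ^ 2 + C ((a 1 : ℤ) : ℚ) * X + C ((a 2 : ℤ) : ℚ)) +
        (C (2 * ((a 0 : ℤ) : ℚ)) * X + C ((a 1 : ℤ) : ℚ)) *
        (C (2 * ((a 0 : ℤ) : ℚ)) * X + C ((a 1 : ℤ) : ℚ)) =
        C ((Pool.Agent.H14F.disc a : ℤ) : ℚ) := by
      unfold Pool.Agent.H14F.disc
      simp only [map_mul, map_neg, map_ofNat, Int.cast_sub, Int.cast_pow, Int.cast_mul,
        Int.cast_ofNat, map_sub, map_pow]
      ring
    calc _ = C (1 / ((Pool.Agent.H14F.disc a : ℤ) : ℚ)) * (C (-4 * ((a 0 : ℤ) : ℚ)) *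
        (C ((a 0 : ℤ) : ℚ) * X ^ 2 + C ((a 1 : ℤ) : ℚ) * X + C ((a 2 : ℤ) : ℚ)) +
        (C (2 * ((a 0 : ℤ) : ℚ)) * X + C ((a 1 : ℤ) : ℚ)) *
        (C (2 * ((a 0 : ℤ) : ℚ)) * X + C ((a 1 : ℤ) : ℚ))) := by ring
      _ = 1 := by
        rw [e2, ← C_mul, one_div, inv_mul_cancel₀ hd, C_1]
  refine (Polynomial.Separable.mul (hsep a ha) (hsep b hb) ?_).squarefree
  have hr' : ((Pool.Agent.H14F.res a b : ℤ) : ℚ) ≠ 0 := by exact_mod_cast hr
  -- the resultant is in the ideal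
  refine ⟨C (1 / ((Pool.Agent.H14F.res a b : ℤ) : ℚ)) *
    (C ((((a 0 * b 1 - b 0 * a 1) * b 0 : ℤ)) : ℚ) * X +
      C ((((a 0 * b 1 - b 0 * a 1) * b 1 - (a 0 * b 2 - b 0 * a 2) * b 0 : ℤ)) : ℚ)),
    C (1 / ((Pool.Agent.H14F.res a b : ℤ) : ℚ)) *
    (C (((-((a 0 * b 1 - b 0 * a 1) * a 0) : ℤ)) : ℚ) * X +
      C ((((a 0 * b 2 - b 0 * a 2) * a 0 - (a 0 * b 1 - b 0 * a 1) * a 1 : ℤ)) : ℚ)), ?_⟩
  have e2 : (C ((((a 0 * b 1 - b 0 * a 1) * b 0 : ℤ)) : ℚ) * X +
      C ((((a 0 * b 1 - b 0 * a 1) * b 1 - (a 0 * b 2 - b 0 * a 2) * b 0 : ℤ)) : ℚ)) *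
      (C ((a 0 : ℤ) : ℚ) * X ^ 2 + C ((a 1 : ℤ) : ℚ) * X + C ((a 2 : ℤ) : ℚ)) +
      (C (((-((a 0 * b 1 - b 0 * a 1) * a 0) : ℤ)) : ℚ) * X +
      C ((((a 0 * b 2 - b 0 * a 2) * a 0 - (a 0 * b 1 - b 0 * a 1) * a 1 : ℤ)) : ℚ)) *
      (C ((b 0 : ℤ) : ℚ) * X ^ 2 + C ((b 1 : ℤ) : ℚ) * X + C ((b 2 : ℤ) : ℚ)) =
      C ((Pool.Agent.H14F.res a b : ℤ) : ℚ) := by
    unfold Pool.Agent.H14F.res
    simp only [map_mul, map_neg, map_ofNat, Int.cast_sub, Int.cast_pow, Int.cast_mul,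
      Int.cast_ofNat, Int.cast_neg, Int.cast_add, map_sub, map_add, map_pow]
    ring
  calc _ = C (1 / ((Pool.Agent.H14F.res a b : ℤ) : ℚ)) *
      ((C ((((a 0 * b 1 - b 0 * a 1) * b 0 : ℤ)) : ℚ) * X +
      C ((((a 0 * b 1 - b 0 * a 1) * b 1 - (a 0 * b 2 - b 0 * a 2) * b 0 : ℤ)) : ℚ)) *
      (C ((a 0 : ℤ) : ℚ) * X ^ 2 + C ((a 1 : ℤ) : ℚ) * X + C ((a 2 : ℤ) : ℚ)) +
      (C (((-((a 0 * b 1 - b 0 * a 1) * a 0) : ℤ)) : ℚ) * X +
      C ((((a 0 * b 2 - b 0 * a 2) * a 0 - (a 0 * b 1 - b 0 * a 1) * a 1 : ℤ)) : ℚ)) *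
      (C ((b 0 : ℤ) : ℚ) * X ^ 2 + C ((b 1 : ℤ) : ℚ) * X + C ((b 2 : ℤ) : ℚ))) := by ring
    _ = 1 := by
      rw [e2, ← C_mul, one_div, inv_mul_cancel₀ hr', C_1]

/-- **Theorem.** There are a partial computable function `φ` from the lists of lists of integers
(polynomials `f(x, y)`) to `{true, false}`, a set `E` of pairs `(a, b)` of triples of integers and real
numbers `C, c > 0` such that
(1) if `φ(f)` is defined, it is `true` if and only if `f` has infinitely many rational zeros;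
(2) if `(a, b)` is not in `E`, then `φ` is defined at `y² - (a₀ x² + a₁ x + a₂)(b₀ x² + b₁ x + b₂)`, this
polynomial has no rational zero, the curve `y² = f(x, w) g(x, w)` has no rational point, and for all nonconstant
`F ∈ ℤ[x]` every adelic point of `y² = f(F(x)) g(F(x))` is obstructed by a class `(f(F), e)`;
(3) for all `H ≥ 3`, at most `C H⁶ (log H)^(-2/25)` of the pairs with `|a_i|, |b_i| ≤ H` are in `E`;
(4) for all large `H`, for at least `c H⁶` of these pairs the curve is smooth of genus one and everywhere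
locally soluble;
(5) hence 100% of the smooth everywhere locally soluble curves violate the Hasse principle, and `φ` decides
them. -/
theorem result :
    ∃ (φ : List (List ℤ) →. Bool) (E : Set ((Fin 3 → ℤ) × (Fin 3 → ℤ))) (C c : ℝ),
    Partrec φ ∧ 0 < C ∧ 0 < c ∧
    (∀ L, ∀ r ∈ φ L, (r = true ↔ (Zeros L).Infinite)) ∧
    (∀ a b : Fin 3 → ℤ, (a, b) ∉ E → (φ (curve a b)).Dom ∧ Zeros (curve a b) = ∅ ∧
      ¬ Soluble a b ℚ ∧ ∀ F : ℤ[X], 1 ≤ F.natDegree → Obstructed F a b) ∧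
    (∀ H : ℕ, 3 ≤ H → (count H (fun a b => (a, b) ∈ E) : ℝ) ≤
        C * (H : ℝ) ^ 6 * Real.log H ^ (-(2 : ℝ) / 25)) ∧
    (∃ H₀ : ℕ, ∀ H : ℕ, H₀ ≤ H → c * (H : ℝ) ^ 6 ≤ (count H Good : ℝ)) ∧
    Filter.Tendsto (fun H : ℕ =>
      (count H (fun a b => Good a b ∧ (a, b) ∉ E) : ℝ) / (count H Good : ℝ))
        Filter.atTop (nhds 1) := by
  obtain ⟨φ, hφ, htrue, hfalse⟩ := Pool.Agent.H14F.ALG.t
  obtain ⟨C₁, hC₁, hup⟩ := Pool.Agent.H14F.anaT
  obtain ⟨C₂, hC₂, hdeg⟩ := Pool.Agent.H14F.DEG.t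
  obtain ⟨c, H0, hc, hlow⟩ := Pool.Agent.H14F.ELS.t
  have hnorat : ∀ a b : Fin 3 → ℤ, Pool.Agent.H14F.Cert a b → ¬ Soluble a b ℚ := by
    intro a b h hs
    exact Pool.Agent.H14F.NORAT.t a b h hs
  have hzero : ∀ a b : Fin 3 → ℤ, Pool.Agent.H14F.Cert a b → Zeros (curve a b) = ∅ := by
    intro a b h
    rw [Set.eq_empty_iff_forall_notMem]
    intro p hp
    exact hnorat a b h ⟨p.1, 1, p.2, Or.inr one_ne_zero, (zeros_curve a b p).1 hp⟩
  have hE : ∀ H : ℕ, 3 ≤ H → (count H (fun a b => (a, b) ∈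
      {p : (Fin 3 → ℤ) × (Fin 3 → ℤ) | ¬ Pool.Agent.H14F.Cert p.1 p.2 ∨ p.1 0 = 0 ∨ p.2 0 = 0}) :
        ℝ) ≤ (C₁ + C₂) * (H : ℝ) ^ 6 * Real.log H ^ (-(2 : ℝ) / 25) := by
    intro H hH
    have hHr : (3 : ℝ) ≤ H := by exact_mod_cast hH
    have hL0 : 0 < Real.log H := Real.log_pos (by linarith)
    have h1 : (count H (fun a b => (a, b) ∈
        {p : (Fin 3 → ℤ) × (Fin 3 → ℤ) | ¬ Pool.Agent.H14F.Cert p.1 p.2 ∨ p.1 0 = 0 ∨ p.2 0 = 0}) :
          ℝ) ≤ (count H (fun a b => Pool.Agent.H14F.res a b ≠ 0 ∧ ¬ Pool.Agent.H14F.Cert a b) : ℝ) +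
        (count H (fun a b => Pool.Agent.H14F.res a b = 0 ∨ Pool.Agent.H14F.disc a = 0 ∨
          Pool.Agent.H14F.disc b = 0 ∨ a 0 = 0 ∨ b 0 = 0) : ℝ) := by
      have := count_split (H := H) (P := fun a b => (a, b) ∈
        {p : (Fin 3 → ℤ) × (Fin 3 → ℤ) | ¬ Pool.Agent.H14F.Cert p.1 p.2 ∨ p.1 0 = 0 ∨ p.2 0 = 0})
        (Q := fun a b => Pool.Agent.H14F.res a b ≠ 0 ∧ ¬ Pool.Agent.H14F.Cert a b)
        (R := fun a b => Pool.Agent.H14F.res a b = 0 ∨ Pool.Agent.H14F.disc a = 0 ∨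
          Pool.Agent.H14F.disc b = 0 ∨ a 0 = 0 ∨ b 0 = 0) (fun a b h => by
            by_cases hr : Pool.Agent.H14F.res a b = 0
            · exact Or.inr (Or.inl hr)
            · rcases h with h | h | h
              · exact Or.inl ⟨hr, h⟩
              · exact Or.inr (Or.inr (Or.inr (Or.inr (Or.inl h))))
              · exact Or.inr (Or.inr (Or.inr (Or.inr (Or.inr h)))))
      exact_mod_cast this
    have h2 : (count H (fun a b => Pool.Agent.H14F.res a b ≠ 0 ∧ ¬ Pool.Agent.H14F.Cert a b) : ℝ) ≤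
        C₁ * (H : ℝ) ^ 6 * Real.log H ^ (-(2 : ℝ) / 25) := by
      refine le_trans (le_of_eq ?_) (hup H hH)
      rw [count_eq]
      congr 1
      refine congrArg Finset.card (Finset.ext fun q => ?_)
      unfold Pool.Agent.H14F.NC
      simp only [Finset.mem_filter]
    have h3 : (count H (fun a b => Pool.Agent.H14F.res a b = 0 ∨ Pool.Agent.H14F.disc a = 0 ∨
          Pool.Agent.H14F.disc b = 0 ∨ a 0 = 0 ∨ b 0 = 0) : ℝ) ≤ C₂ * (H : ℝ) ^ 5 := by
      refine le_trans (le_of_eq ?_) (hdeg H (by omega))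
      rw [count_eq]
      congr 1
      refine congrArg Finset.card (Finset.ext fun q => ?_)
      simp only [Finset.mem_filter]
    have h4 : C₂ * (H : ℝ) ^ 5 ≤ C₂ * (H : ℝ) ^ 6 * Real.log H ^ (-(2 : ℝ) / 25) := by
      have h5 : (H : ℝ)⁻¹ ≤ Real.log H ^ (-(2 : ℝ) / 25) := by
        have h6 : Real.log H ≤ H := (Real.log_le_self (by linarith))
        have h7 : (H : ℝ) ^ (-(2 : ℝ) / 25) ≤ Real.log H ^ (-(2 : ℝ) / 25) :=
          Real.rpow_le_rpow_of_nonpos hL0 h6 (by norm_num)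
        refine le_trans ?_ h7
        rw [← Real.rpow_neg_one]
        exact Real.rpow_le_rpow_of_exponent_le (by linarith) (by norm_num)
      calc C₂ * (H : ℝ) ^ 5 = C₂ * (H : ℝ) ^ 6 * (H : ℝ)⁻¹ := by
            field_simp
        _ ≤ _ := mul_le_mul_of_nonneg_left h5 (by positivity)
    calc _ ≤ _ := h1
      _ ≤ C₁ * (H : ℝ) ^ 6 * Real.log H ^ (-(2 : ℝ) / 25) +
          C₂ * (H : ℝ) ^ 6 * Real.log H ^ (-(2 : ℝ) / 25) := add_le_add h2 (h3.trans h4)
      _ = _ := by ring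
  have hG : ∀ H : ℕ, H0 ≤ H → c * (H : ℝ) ^ 6 ≤ (count H Good : ℝ) := by
    intro H hH
    refine (hlow H hH).trans ?_
    rw [count_eq]
    have : ((Pool.Agent.H14F.box H ×ˢ Pool.Agent.H14F.box H).filter
        fun q : (Fin 3 → ℤ) × (Fin 3 → ℤ) => (Pool.Agent.H14F.res q.1 q.2 ≠ 0 ∧
          Pool.Agent.H14F.disc q.1 ≠ 0 ∧ Pool.Agent.H14F.disc q.2 ≠ 0 ∧ q.1 0 ≠ 0 ∧ q.2 0 ≠ 0) ∧
          Pool.Agent.H14F.Sol q.1 q.2 ℝ ∧
          ∀ (p : ℕ) [Fact p.Prime], Pool.Agent.H14F.Sol q.1 q.2 ℚ_[p]).card ≤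
        ((Pool.Agent.H14F.box H ×ˢ Pool.Agent.H14F.box H).filter
          fun p : (Fin 3 → ℤ) × (Fin 3 → ℤ) => Good p.1 p.2).card := by
      refine Finset.card_le_card fun q hq => ?_
      rw [Finset.mem_filter] at hq ⊢
      obtain ⟨h1, ⟨h2, h3, h4, h5, h6⟩, h7, h8⟩ := hq
      exact ⟨h1, h5, h6, sqf_of h3 h4 h2, h7, h8⟩
    exact_mod_cast this
  refine ⟨φ, {p | ¬ Pool.Agent.H14F.Cert p.1 p.2 ∨ p.1 0 = 0 ∨ p.2 0 = 0}, C₁ + C₂, c, hφ,
    by positivity, hc, ?_, ?_, hE, ⟨H0, hG⟩, ?_⟩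
  · intro L r hr
    cases r with
    | true => exact absurd hr (htrue _)
    | false =>
      obtain ⟨a, b, rfl, hc⟩ := (hfalse _).1 hr
      have h : Zeros (curve a b) = ∅ := hzero a b hc
      have h' : Zeros (Pool.Agent.H14F.curve a b) = ∅ := h
      rw [h']
      simp
  · intro a b hab
    have hab' : Pool.Agent.H14F.Cert a b ∧ a 0 ≠ 0 ∧ b 0 ≠ 0 := by
      simpa only [Set.mem_ofPred_eq, not_or, not_not] using hab
    obtain ⟨hcert, ha, hb⟩ := hab'
    refine ⟨?_, hzero a b hcert, hnorat a b hcert, ?_⟩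
    · rw [Part.dom_iff_mem]
      exact ⟨false, (hfalse _).2 ⟨a, b, rfl, hcert⟩⟩
    · intro F hF P
      obtain ⟨e, he, hodd⟩ := (Pool.Agent.H14F.BM.t F a b hF ha hb hcert).1 P
      refine ⟨e, ?_, hodd⟩
      rcases he with rfl | rfl | ⟨-, h⟩
      · norm_num
      · norm_num
      · rintro rfl
        norm_num at h
  · have hlim : Filter.Tendsto (fun H : ℕ => 1 - (C₁ + C₂) / c * Real.log H ^ (-(2 : ℝ) / 25))
        Filter.atTop (nhds 1) := by
      have e1 : Filter.Tendsto (fun H : ℕ => Real.log H ^ (-(2 : ℝ) / 25)) Filter.atTop (nhds 0) := by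
        have h5 : Filter.Tendsto (fun x : ℝ => x ^ (-(2 / 25 : ℝ))) Filter.atTop (nhds 0) :=
          tendsto_rpow_neg_atTop (by norm_num)
        have h6 := h5.comp (Real.tendsto_log_atTop.comp tendsto_natCast_atTop_atTop)
        refine h6.congr fun H => ?_
        simp only [Function.comp_apply]
        norm_num
      have e3 := (e1.const_mul ((C₁ + C₂) / c)).const_sub 1
      rw [mul_zero, sub_zero] at e3
      exact e3
    refine tendsto_of_tendsto_of_tendsto_of_le_of_le' hlim tendsto_const_nhds ?_ ?_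
    · rw [Filter.eventually_atTop]
      refine ⟨max 3 H0, fun H hH => ?_⟩
      have hH3 : 3 ≤ H := le_trans (le_max_left _ _) hH
      have a1 := hE H hH3
      have a2 := hG H (le_trans (le_max_right _ _) hH)
      have hHr : (3 : ℝ) ≤ H := by exact_mod_cast hH3
      have hL0 : 0 < Real.log H := Real.log_pos (by linarith)
      have a3 : (count H Good : ℝ) ≤
          (count H (fun a b => Good a b ∧ (a, b) ∉
            {p : (Fin 3 → ℤ) × (Fin 3 → ℤ) | ¬ Pool.Agent.H14F.Cert p.1 p.2 ∨ p.1 0 = 0 ∨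
              p.2 0 = 0}) : ℝ) +
          (count H (fun a b => (a, b) ∈
            {p : (Fin 3 → ℤ) × (Fin 3 → ℤ) | ¬ Pool.Agent.H14F.Cert p.1 p.2 ∨ p.1 0 = 0 ∨
              p.2 0 = 0}) : ℝ) := by
        have := count_split (H := H) (P := Good) (Q := fun a b => Good a b ∧ (a, b) ∉
            {p : (Fin 3 → ℤ) × (Fin 3 → ℤ) | ¬ Pool.Agent.H14F.Cert p.1 p.2 ∨ p.1 0 = 0 ∨
              p.2 0 = 0})
          (R := fun a b => (a, b) ∈
            {p : (Fin 3 → ℤ) × (Fin 3 → ℤ) | ¬ Pool.Agent.H14F.Cert p.1 p.2 ∨ p.1 0 = 0 ∨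
              p.2 0 = 0}) (fun a b hp => by
            by_cases h : (a, b) ∈ {p : (Fin 3 → ℤ) × (Fin 3 → ℤ) |
              ¬ Pool.Agent.H14F.Cert p.1 p.2 ∨ p.1 0 = 0 ∨ p.2 0 = 0}
            · exact Or.inr h
            · exact Or.inl ⟨hp, h⟩)
        exact_mod_cast this
      have hpos : 0 < (count H Good : ℝ) := lt_of_lt_of_le (by positivity) a2
      rw [le_div_iff₀ hpos]
      have a5 : (C₁ + C₂) * (H : ℝ) ^ 6 * Real.log H ^ (-(2 : ℝ) / 25) ≤
          (C₁ + C₂) / c * Real.log H ^ (-(2 : ℝ) / 25) * (count H Good : ℝ) := by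
        have := mul_le_mul_of_nonneg_left a2
          (by positivity : 0 ≤ (C₁ + C₂) / c * Real.log H ^ (-(2 : ℝ) / 25))
        refine le_trans (le_of_eq ?_) this
        field_simp
      linarith
    · rw [Filter.eventually_atTop]
      refine ⟨0, fun H _ => ?_⟩
      refine div_le_one_of_le₀ ?_ (Nat.cast_nonneg _)
      have : count H (fun a b => Good a b ∧ (a, b) ∉
            {p : (Fin 3 → ℤ) × (Fin 3 → ℤ) | ¬ Pool.Agent.H14F.Cert p.1 p.2 ∨ p.1 0 = 0 ∨
              p.2 0 = 0}) ≤ count H Good :=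
        count_le fun a b h => h.1
      exact_mod_cast this

end Pool.Agent.Results.MP_d6ddbd_nt.AllPairsOfForms
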