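import Pool.Agent.H14Q.Alg
import Pool.Agent.H14Q.Low3

/-!
# Infinitude of rational points is decided for 100% of all plane curves `(x² - m)(y² - n) = k`

There is one partial computable function `φ` on the polynomials `f(x, y)` with integer coefficients (lists of
coefficient lists) which answers correctly, whenever it halts, whether `f(x, y) = 0` has infinitely many
rational solutions, and which halts on all but at most `C H⁴ (log H)^(-4/5)` of the genus one curves
`(x² - m)(y² - n) = k` with `|m|, |n| ≤ H`, `0 < |k| ≤ H²`; it proves that they have no rational points.  At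
least `c H⁴ (log H)^(-1/2)` of these curves are smooth and have points over `ℝ` and over all fields `ℚ_p`: 100%
of the everywhere locally soluble curves of this three-parameter family violate the Hasse principle, and the
algorithm proves it.

Here `k` varies, and the number of the coverings `r² - m s² = g v²`, `u² - n v² = h s²` (`g h = k`) is not
bounded.  One of `g`, `h` is at most `H`, say `g`; then `(m, n, h)` are free, and the large sieve in dimension
three is applied, with the obstructions at the primes dividing `n`, `h`, `m n - g h` and `g`; the sum over `g`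
is bounded by an Euler product and Rankin's trick.
-/

set_option autoImplicit false

namespace Pool.Agent.Results.MP_d6ddbd_nt.AllProducts

open scoped Classical

/-- the set `Z_f(ℚ)` of the rational zeros of `f = ∑ L_(i,j) x^i y^j` -/
def Zeros (L : List (List ℤ)) : Set (ℚ × ℚ) := {p : ℚ × ℚ |
  ∑ i ∈ Finset.range L.length, ∑ j ∈ Finset.range (L.getD i []).length,
    (((L.getD i []).getD j 0 : ℤ) : ℚ) * p.1 ^ i * p.2 ^ j = 0}

/-- the polynomial `(x² - m)(y² - n) - k` -/
def curve (m n k : ℤ) : List (List ℤ) := [[m * n - k, 0, -m], [], [-n, 0, 1]]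

/-- `(x² - m)(y² - n) = k` has a solution in the field `F` -/
def Soluble (m n k : ℤ) (F : Type) [Field F] : Prop :=
  ∃ x y : F, (x ^ 2 - (m : F)) * (y ^ 2 - (n : F)) = (k : F)

/-- `(x² - m)(y² - n) = k` has solutions in `ℝ` and in `ℚ_p` for all primes `p` -/
def LocallySoluble (m n k : ℤ) : Prop :=
  Soluble m n k ℝ ∧ ∀ (p : ℕ) [Fact p.Prime], Soluble m n k ℚ_[p]

/-- the number of the triples `(m, n, k)`, `|m| ≤ H`, `|n| ≤ H`, `0 < |k| ≤ H²`, with the property `P` -/
noncomputable def count (H : ℕ) (P : ℤ → ℤ → ℤ → Prop) : ℕ :=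
  ((Finset.Icc (-(H : ℤ)) H ×ˢ Finset.Icc (-(H : ℤ)) H ×ˢ
    Finset.Icc (-((H ^ 2 : ℕ) : ℤ)) ((H ^ 2 : ℕ) : ℤ)).filter fun p =>
      p.2.2 ≠ 0 ∧ P p.1 p.2.1 p.2.2).card

/-- `(x² - m)(y² - n) = k` is everywhere locally soluble and is a smooth curve of genus one -/
def Good (m n k : ℤ) : Prop := LocallySoluble m n k ∧ m * n ≠ 0 ∧ m * n ≠ k

theorem zeros_curve (m n k : ℤ) (p : ℚ × ℚ) :
    p ∈ Zeros (curve m n k) ↔ (p.1 ^ 2 - m) * (p.2 ^ 2 - n) = k := by
  unfold Zeros curve
  simp only [Set.mem_ofPred_eq, List.length_cons, List.length_nil, Finset.sum_range_succ,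
    Finset.sum_range_zero, List.getD_cons_zero, List.getD_cons_succ, List.getD_nil]
  push_cast
  constructor
  · intro h
    linear_combination h
  · intro h
    linear_combination h

theorem count_eq {H : ℕ} {P : ℤ → ℤ → ℤ → Prop} (Q : ℤ × ℤ × ℤ → Prop) [DecidablePred Q]
    (h : ∀ p : ℤ × ℤ × ℤ, Q p ↔ p.2.2 ≠ 0 ∧ P p.1 p.2.1 p.2.2) :
    count H P = ((Pool.Agent.H14Q.box3 H).filter Q).card := by
  unfold count Pool.Agent.H14Q.box3
  refine congrArg Finset.card ?_
  ext p
  rw [Finset.mem_filter, Finset.mem_filter, h]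

theorem count_le {H : ℕ} {P Q : ℤ → ℤ → ℤ → Prop} (h : ∀ m n k, P m n k → Q m n k) :
    count H P ≤ count H Q := by
  unfold count
  refine Finset.card_le_card fun p hp => ?_
  rw [Finset.mem_filter] at hp ⊢
  exact ⟨hp.1, hp.2.1, h _ _ _ hp.2.2⟩

theorem count_split {H : ℕ} (P Q : ℤ → ℤ → ℤ → Prop) :
    count H P ≤ count H (fun m n k => P m n k ∧ Q m n k) + count H (fun m n k => ¬ Q m n k) := by
  rw [count_eq (fun p : ℤ × ℤ × ℤ => p.2.2 ≠ 0 ∧ P p.1 p.2.1 p.2.2) fun p => Iff.rfl,
    count_eq (fun p : ℤ × ℤ × ℤ => p.2.2 ≠ 0 ∧ (P p.1 p.2.1 p.2.2 ∧ Q p.1 p.2.1 p.2.2))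
      fun p => Iff.rfl,
    count_eq (fun p : ℤ × ℤ × ℤ => p.2.2 ≠ 0 ∧ ¬ Q p.1 p.2.1 p.2.2) fun p => Iff.rfl]
  refine le_trans (Finset.card_le_card ?_) (Finset.card_union_le _ _)
  intro p hp
  have hp := Finset.mem_filter.1 hp
  rw [Finset.mem_union, Finset.mem_filter, Finset.mem_filter]
  by_cases h : Q p.1 p.2.1 p.2.2
  · exact Or.inl ⟨hp.1, hp.2.1, hp.2.2, h⟩
  · exact Or.inr ⟨hp.1, hp.2.1, h⟩

/-- **Theorem.** There are a partial computable function `φ` from the lists of lists of integers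
(polynomials `f(x, y)`) to `{true, false}` and real numbers `C, c > 0` such that
(1) if `φ(f)` is defined, it is `true` if and only if `f` has infinitely many rational zeros;
(2) if `φ` is defined at `(x² - m)(y² - n) - k`, this polynomial has no rational zero;
(3) for all `H ≥ 256`, the number of the triples `(m, n, k)` with `|m|, |n| ≤ H`, `0 < |k| ≤ H²`, for which `φ`
is not defined at `(x² - m)(y² - n) - k` is at most `C H⁴ (log H)^(-4/5)`;
(4) for all large `H`, the number of these triples for which the curve is smooth and everywhere locally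
soluble is at least `c H⁴ (log H)^(-1/2)`;
(5) hence `φ` is defined (and `false`) for 100% of the smooth everywhere locally soluble curves, and these
violate the Hasse principle. -/
theorem result :
    ∃ (φ : List (List ℤ) →. Bool) (C c : ℝ), Partrec φ ∧ 0 < C ∧ 0 < c ∧
    (∀ L, ∀ r ∈ φ L, (r = true ↔ (Zeros L).Infinite)) ∧
    (∀ m n k : ℤ, (φ (curve m n k)).Dom → Zeros (curve m n k) = ∅) ∧
    (∀ H : ℕ, 256 ≤ H → (count H (fun m n k => ¬ (φ (curve m n k)).Dom) : ℝ) ≤
        C * (H : ℝ) ^ 4 * Real.log H ^ (-(4 : ℝ) / 5)) ∧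
    (∃ H₀ : ℕ, ∀ H : ℕ, H₀ ≤ H →
      c * (H : ℝ) ^ 4 * Real.log H ^ (-(1 : ℝ) / 2) ≤ (count H Good : ℝ)) ∧
    Filter.Tendsto (fun H : ℕ =>
      (count H (fun m n k => Good m n k ∧ (φ (curve m n k)).Dom) : ℝ) / (count H Good : ℝ))
        Filter.atTop (nhds 1) := by
  obtain ⟨φ, hφ, htrue, hfalse⟩ := Pool.Agent.H14Q.exists_alg
  obtain ⟨C, hC, hup⟩ := Pool.Agent.H14Q.up3
  obtain ⟨c, hc, H0, hlow⟩ := Pool.Agent.H14Q.low3
  have hdom : ∀ m n k : ℤ, (φ (curve m n k)).Dom ↔ Pool.Agent.H14Q.Cert m n k := by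
    intro m n k
    rw [Part.dom_iff_mem]
    constructor
    · rintro ⟨r, hr⟩
      cases r with
      | true => exact absurd hr (htrue _)
      | false =>
        obtain ⟨m', n', k', e, hc⟩ := (hfalse _).1 hr
        obtain ⟨rfl, rfl, rfl⟩ := Pool.Agent.H14Q.curve_inj (e : Pool.Agent.H14Q.curve m n k = _)
        exact hc
    · intro hc
      exact ⟨false, (hfalse _).2 ⟨m, n, k, rfl, hc⟩⟩
  have hempty : ∀ m n k : ℤ, (φ (curve m n k)).Dom → Zeros (curve m n k) = ∅ := by
    intro m n k h
    rw [Set.eq_empty_iff_forall_notMem]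
    intro p hp
    exact ((hdom m n k).1 h).no_zero p.1 p.2 ((zeros_curve m n k p).1 hp)
  have h3 : ∀ H : ℕ, 256 ≤ H → (count H (fun m n k => ¬ (φ (curve m n k)).Dom) : ℝ) ≤
        C * (H : ℝ) ^ 4 * Real.log H ^ (-(4 : ℝ) / 5) := by
    intro H hH
    refine le_trans (le_of_eq ?_) (hup H hH)
    rw [count_eq (fun p : ℤ × ℤ × ℤ => p.2.2 ≠ 0 ∧ ¬ Pool.Agent.H14Q.Cert p.1 p.2.1 p.2.2)
      fun p => by rw [hdom]]
  have h4 : ∀ H : ℕ, H0 ≤ H →
      c * (H : ℝ) ^ 4 * Real.log H ^ (-(1 : ℝ) / 2) ≤ (count H Good : ℝ) := by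
    intro H hH
    rw [count_eq (P := Good) (fun p : ℤ × ℤ × ℤ => p.2.2 ≠ 0 ∧
      Pool.Agent.H14Q.ELS p.1 p.2.1 p.2.2 ∧ p.1 * p.2.1 ≠ 0 ∧ p.1 * p.2.1 ≠ p.2.2)
      fun p => Iff.rfl]
    exact hlow H hH
  refine ⟨φ, C, c, hφ, hC, hc, ?_, hempty, h3, ⟨H0, h4⟩, ?_⟩
  · intro L r hr
    cases r with
    | true => exact absurd hr (htrue _)
    | false =>
      obtain ⟨m, n, k, rfl, hc⟩ := (hfalse _).1 hr
      have h : Zeros (curve m n k) = ∅ := hempty m n k ((hdom m n k).2 hc)
      have h' : Zeros (Pool.Agent.H14Q.curve m n k) = ∅ := h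
      rw [h']
      simp
  · have hlim : Filter.Tendsto (fun H : ℕ => 1 - C / c * Real.log H ^ (-(3 : ℝ) / 10))
        Filter.atTop (nhds 1) := by
      have e1 : Filter.Tendsto (fun H : ℕ => Real.log H ^ (-(3 : ℝ) / 10)) Filter.atTop (nhds 0) := by
        have h5 : Filter.Tendsto (fun x : ℝ => x ^ (-(3 / 10 : ℝ))) Filter.atTop (nhds 0) :=
          tendsto_rpow_neg_atTop (by norm_num)
        have h6 := h5.comp (Real.tendsto_log_atTop.comp tendsto_natCast_atTop_atTop)
        refine h6.congr fun H => ?_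
        simp only [Function.comp_apply]
        norm_num
      have e3 := (e1.const_mul (C / c)).const_sub 1
      rw [mul_zero, sub_zero] at e3
      exact e3
    refine tendsto_of_tendsto_of_tendsto_of_le_of_le' hlim tendsto_const_nhds ?_ ?_
    · rw [Filter.eventually_atTop]
      refine ⟨max 256 H0, fun H hH => ?_⟩
      have hH256 : 256 ≤ H := le_trans (le_max_left _ _) hH
      have a1 := h3 H hH256
      have a2 := h4 H (le_trans (le_max_right _ _) hH)
      have hHr : (256 : ℝ) ≤ H := by exact_mod_cast hH256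
      have hL0 : 0 < Real.log H := Real.log_pos (by linarith)
      have a3 : (count H Good : ℝ) ≤
          (count H (fun m n k => Good m n k ∧ (φ (curve m n k)).Dom) : ℝ) +
          (count H (fun m n k => ¬ (φ (curve m n k)).Dom) : ℝ) := by
        exact_mod_cast count_split _ _
      have hpos : 0 < (count H Good : ℝ) := lt_of_lt_of_le (by positivity) a2
      rw [le_div_iff₀ hpos]
      have e : Real.log H ^ (-(4 : ℝ) / 5) = Real.log H ^ (-(3 : ℝ) / 10) *
          Real.log H ^ (-(1 : ℝ) / 2) := by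
        rw [← Real.rpow_add hL0]
        norm_num
      have a5 : C * (H : ℝ) ^ 4 * Real.log H ^ (-(4 : ℝ) / 5) ≤
          C / c * Real.log H ^ (-(3 : ℝ) / 10) * (count H Good : ℝ) := by
        have := mul_le_mul_of_nonneg_left a2
          (by positivity : 0 ≤ C / c * Real.log H ^ (-(3 : ℝ) / 10))
        refine le_trans (le_of_eq ?_) this
        rw [e]
        field_simp
      linarith
    · rw [Filter.eventually_atTop]
      refine ⟨0, fun H _ => ?_⟩
      refine div_le_one_of_le₀ ?_ (Nat.cast_nonneg _)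
      have : count H (fun m n k => Good m n k ∧ (φ (curve m n k)).Dom) ≤ count H Good :=
        count_le fun m n k h => h.1
      exact_mod_cast this

end Pool.Agent.Results.MP_d6ddbd_nt.AllProducts
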