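import Pool.Agent.H14Q.Alg
import Pool.Agent.H14Q.Up1b
import Pool.Agent.H14Q.Low1

/-!
# Infinitude of rational points is decided for 100% of the plane curves `(x² - m)(y² - n) = k`, `k` fixed

There is one partial computable function `φ` on the polynomials `f(x, y)` with integer coefficients (lists of
coefficient lists) which answers correctly, whenever it halts, whether `f(x, y) = 0` has infinitely many
rational solutions, such that for every `k ≠ 0` it halts on the genus one curve `(x² - m)(y² - n) = k` for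
all but at most `C τ(k)² H² √(log log H / log H)` of the pairs `(m, n)` with `|m|, |n| ≤ H`.  On these curves
it proves that there are no rational solutions.  For every `k` a positive proportion of the curves has
solutions in `ℝ` and in all fields `ℚ_p`; so for every `k` the proportion of the curves with a rational point
among the everywhere locally soluble ones is zero.

Proof.  If `x = r/s`, `y = u/v`, then `r² - m s² = g v²`, `u² - n v² = h s²` with `g h = k`.  The algorithm
searches for every factorisation `k = g h` an obstruction modulo `q²` to this covering.  If a prime `q ∤ 2k`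
divides `m n - k` exactly once and `g n` is not a square modulo `q`, there is one; the large sieve shows that
such a `q` exists for most of the pairs.
-/

set_option autoImplicit false

namespace Pool.Agent.Results.MP_d6ddbd_nt.FixedProduct

open scoped Classical

/-- the set `Z_f(ℚ)` of the rational zeros of `f = ∑ L_(i,j) x^i y^j` -/
def Zeros (L : List (List ℤ)) : Set (ℚ × ℚ) := {p : ℚ × ℚ |
  ∑ i ∈ Finset.range L.length, ∑ j ∈ Finset.range (L.getD i []).length,
    (((L.getD i []).getD j 0 : ℤ) : ℚ) * p.1 ^ i * p.2 ^ j = 0}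

/-- the polynomial `(x² - m)(y² - n) - k` -/
def curve (m n k : ℤ) : List (List ℤ) := [[m * n - k, 0, -m], [], [-n, 0, 1]]

/-- `(x² - m)(y² - n) = k` has a solution in the field `F` -/
def Soluble (m n k : ℤ) (F : Type) [Field F] : Prop :=
  ∃ x y : F, (x ^ 2 - (m : F)) * (y ^ 2 - (n : F)) = (k : F)

/-- `(x² - m)(y² - n) = k` has solutions in `ℝ` and in `ℚ_p` for all primes `p` -/
def LocallySoluble (m n k : ℤ) : Prop :=
  Soluble m n k ℝ ∧ ∀ (p : ℕ) [Fact p.Prime], Soluble m n k ℚ_[p]

/-- the number of the pairs `(m, n)`, `|m| ≤ H`, `|n| ≤ H`, with the property `P` -/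
noncomputable def count (H : ℕ) (P : ℤ → ℤ → Prop) : ℕ :=
  ((Finset.Icc (-(H : ℤ)) H ×ˢ Finset.Icc (-(H : ℤ)) H).filter fun p => P p.1 p.2).card

/-- `(x² - m)(y² - n) = k` is everywhere locally soluble and is a smooth curve of genus one -/
def Good (k m n : ℤ) : Prop := LocallySoluble m n k ∧ m * n ≠ 0 ∧ m * n ≠ k

theorem zeros_curve (m n k : ℤ) (p : ℚ × ℚ) :
    p ∈ Zeros (curve m n k) ↔ (p.1 ^ 2 - m) * (p.2 ^ 2 - n) = k := by
  unfold Zeros curve
  simp only [Set.mem_ofPred_eq, List.length_cons, List.length_nil, Finset.sum_range_succ,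
    Finset.sum_range_zero, List.getD_cons_zero, List.getD_cons_succ, List.getD_nil]
  push_cast
  constructor
  · intro h
    linear_combination h
  · intro h
    linear_combination h

theorem count_eq {H : ℕ} {P : ℤ → ℤ → Prop} (Q : ℤ × ℤ → Prop) [DecidablePred Q]
    (h : ∀ p : ℤ × ℤ, Q p ↔ P p.1 p.2) :
    count H P = ((Pool.Agent.H14Q.box H).filter Q).card := by
  unfold count Pool.Agent.H14Q.box
  refine congrArg Finset.card ?_
  ext p
  rw [Finset.mem_filter, Finset.mem_filter, h]

theorem count_le {H : ℕ} {P Q : ℤ → ℤ → Prop} (h : ∀ m n, P m n → Q m n) :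
    count H P ≤ count H Q := by
  unfold count
  refine Finset.card_le_card fun p hp => ?_
  rw [Finset.mem_filter] at hp ⊢
  exact ⟨hp.1, h _ _ hp.2⟩

theorem count_split {H : ℕ} (P Q : ℤ → ℤ → Prop) :
    count H P ≤ count H (fun m n => P m n ∧ Q m n) + count H (fun m n => ¬ Q m n) := by
  rw [count_eq (fun p : ℤ × ℤ => P p.1 p.2) fun p => Iff.rfl,
    count_eq (fun p : ℤ × ℤ => P p.1 p.2 ∧ Q p.1 p.2) fun p => Iff.rfl,
    count_eq (fun p : ℤ × ℤ => ¬ Q p.1 p.2) fun p => Iff.rfl]
  refine le_trans (Finset.card_le_card ?_) (Finset.card_union_le _ _)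
  intro p hp
  have hp := Finset.mem_filter.1 hp
  rw [Finset.mem_union, Finset.mem_filter, Finset.mem_filter]
  by_cases h : Q p.1 p.2
  · exact Or.inl ⟨hp.1, hp.2, h⟩
  · exact Or.inr ⟨hp.1, h⟩

/-- **Theorem.** There is a partial computable function `φ` from the lists of lists of integers
(polynomials `f(x, y)`) to `{true, false}` and a real number `C > 0` such that
(1) if `φ(f)` is defined, it is `true` if and only if `f` has infinitely many rational zeros;
(2) if `φ` is defined at `(x² - m)(y² - n) - k`, this polynomial has no rational zero;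
(3) for all integers `k ≠ 0` and all `H ≥ 16`, the number of the pairs `(m, n)` with `|m|, |n| ≤ H` for which
`φ` is not defined at `(x² - m)(y² - n) - k` is at most `C τ(|k|)² H² √(log log H / log H)`;
(4) for all `k ≠ 0` and all `H ≥ (160 k)²`, the number of the pairs for which this curve is smooth and everywhere
locally soluble is at least `H² / (32 |k|)`;
(5) hence, for every `k ≠ 0`, `φ` is defined (and `false`) for 100% of the smooth everywhere locally soluble
curves, and these violate the Hasse principle. -/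
theorem result :
    ∃ (φ : List (List ℤ) →. Bool) (C : ℝ), Partrec φ ∧ 0 < C ∧
    (∀ L, ∀ r ∈ φ L, (r = true ↔ (Zeros L).Infinite)) ∧
    (∀ m n k : ℤ, (φ (curve m n k)).Dom → Zeros (curve m n k) = ∅) ∧
    (∀ (k : ℤ) (H : ℕ), k ≠ 0 → 16 ≤ H →
      (count H (fun m n => ¬ (φ (curve m n k)).Dom) : ℝ) ≤
        C * (k.natAbs.divisors.card : ℝ) ^ 2 * (H : ℝ) ^ 2 *
          Real.sqrt (Real.log (Real.log H) / Real.log H)) ∧
    (∀ (k : ℤ) (H : ℕ), k ≠ 0 → (160 * k.natAbs) ^ 2 ≤ H →
      (H : ℝ) ^ 2 / (32 * k.natAbs) ≤ (count H (Good k) : ℝ)) ∧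
    (∀ k : ℤ, k ≠ 0 → Filter.Tendsto (fun H : ℕ =>
      (count H (fun m n => Good k m n ∧ (φ (curve m n k)).Dom) : ℝ) / (count H (Good k) : ℝ))
        Filter.atTop (nhds 1)) := by
  obtain ⟨φ, hφ, htrue, hfalse⟩ := Pool.Agent.H14Q.exists_alg
  obtain ⟨C, hC, hup⟩ := Pool.Agent.H14Q.up1
  have hdom : ∀ m n k : ℤ, (φ (curve m n k)).Dom ↔ Pool.Agent.H14Q.Cert m n k := by
    intro m n k
    rw [Part.dom_iff_mem]
    constructor
    · rintro ⟨r, hr⟩
      cases r with
      | true => exact absurd hr (htrue _)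
      | false =>
        obtain ⟨m', n', k', e, hc⟩ := (hfalse _).1 hr
        obtain ⟨rfl, rfl, rfl⟩ := Pool.Agent.H14Q.curve_inj (e : Pool.Agent.H14Q.curve m n k = _)
        exact hc
    · intro hc
      exact ⟨false, (hfalse _).2 ⟨m, n, k, rfl, hc⟩⟩
  have hempty : ∀ m n k : ℤ, (φ (curve m n k)).Dom → Zeros (curve m n k) = ∅ := by
    intro m n k h
    rw [Set.eq_empty_iff_forall_notMem]
    intro p hp
    exact ((hdom m n k).1 h).no_zero p.1 p.2 ((zeros_curve m n k p).1 hp)
  have h3 : ∀ (k : ℤ) (H : ℕ), k ≠ 0 → 16 ≤ H →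
      (count H (fun m n => ¬ (φ (curve m n k)).Dom) : ℝ) ≤
        C * (k.natAbs.divisors.card : ℝ) ^ 2 * (H : ℝ) ^ 2 *
          Real.sqrt (Real.log (Real.log H) / Real.log H) := by
    intro k H hk hH
    refine le_trans (le_of_eq ?_) (hup k H hk hH)
    rw [count_eq (fun p : ℤ × ℤ => ¬ Pool.Agent.H14Q.Cert p.1 p.2 k) fun p => by rw [hdom]]
  have h4 : ∀ (k : ℤ) (H : ℕ), k ≠ 0 → (160 * k.natAbs) ^ 2 ≤ H →
      (H : ℝ) ^ 2 / (32 * k.natAbs) ≤ (count H (Good k) : ℝ) := by
    intro k H hk hH
    rw [count_eq (P := Good k) (fun p : ℤ × ℤ => Pool.Agent.H14Q.ELS p.1 p.2 k ∧ p.1 * p.2 ≠ 0 ∧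
      p.1 * p.2 ≠ k) fun p => Iff.rfl]
    exact Pool.Agent.H14Q.low1 hk hH
  refine ⟨φ, C, hφ, hC, ?_, hempty, h3, h4, ?_⟩
  · intro L r hr
    cases r with
    | true => exact absurd hr (htrue _)
    | false =>
      obtain ⟨m, n, k, rfl, hc⟩ := (hfalse _).1 hr
      have h : Zeros (curve m n k) = ∅ := hempty m n k ((hdom m n k).2 hc)
      have h' : Zeros (Pool.Agent.H14Q.curve m n k) = ∅ := h
      rw [h']
      simp
  · intro k hk
    set τ := (k.natAbs.divisors.card : ℝ) with hτ
    have hK1 : 1 ≤ k.natAbs := Int.natAbs_pos.2 hk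
    have hKr : (1 : ℝ) ≤ k.natAbs := by exact_mod_cast hK1
    have hlim : Filter.Tendsto (fun H : ℕ => 1 - 32 * (k.natAbs : ℝ) * C * τ ^ 2 *
        Real.sqrt (Real.log (Real.log H) / Real.log H)) Filter.atTop (nhds 1) := by
      have e1 : Filter.Tendsto (fun H : ℕ => Real.log (Real.log H) / Real.log H) Filter.atTop
          (nhds 0) := by
        have h5 : Filter.Tendsto (fun x : ℝ => Real.log x / x) Filter.atTop (nhds 0) := by
          have := Real.isLittleO_log_id_atTop.tendsto_div_nhds_zero
          exact this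
        exact h5.comp (Real.tendsto_log_atTop.comp tendsto_natCast_atTop_atTop)
      have e2 : Filter.Tendsto (fun H : ℕ => Real.sqrt (Real.log (Real.log H) / Real.log H))
          Filter.atTop (nhds 0) := by
        have := (Real.continuous_sqrt.tendsto 0).comp e1
        rwa [Real.sqrt_zero] at this
      have e3 := (e2.const_mul (32 * (k.natAbs : ℝ) * C * τ ^ 2)).const_sub 1
      rw [mul_zero, sub_zero] at e3
      exact e3
    refine tendsto_of_tendsto_of_tendsto_of_le_of_le' hlim tendsto_const_nhds ?_ ?_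
    · rw [Filter.eventually_atTop]
      refine ⟨max 16 ((160 * k.natAbs) ^ 2), fun H hH => ?_⟩
      have a1 := h3 k H hk (le_trans (le_max_left _ _) hH)
      have a2 := h4 k H hk (le_trans (le_max_right _ _) hH)
      have hH16 : (16 : ℝ) ≤ H := by exact_mod_cast le_trans (le_max_left _ _) hH
      have a3 : count H (Good k) ≤ count H (fun m n => Good k m n ∧ (φ (curve m n k)).Dom) +
          count H (fun m n => ¬ (φ (curve m n k)).Dom) := count_split _ _
      have a4 : (count H (Good k) : ℝ) ≤
          (count H (fun m n => Good k m n ∧ (φ (curve m n k)).Dom) : ℝ) +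
          (count H (fun m n => ¬ (φ (curve m n k)).Dom) : ℝ) := by exact_mod_cast a3
      set R := Real.sqrt (Real.log (Real.log H) / Real.log H) with hR
      have hpos : 0 < (count H (Good k) : ℝ) := lt_of_lt_of_le (by positivity) a2
      rw [le_div_iff₀ hpos]
      have a5 : C * τ ^ 2 * (H : ℝ) ^ 2 * R ≤
          32 * (k.natAbs : ℝ) * C * τ ^ 2 * R * (count H (Good k) : ℝ) := by
        have := mul_le_mul_of_nonneg_left a2
          (by positivity : 0 ≤ 32 * (k.natAbs : ℝ) * C * τ ^ 2 * R)
        refine le_trans (le_of_eq ?_) this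
        field_simp
      linarith
    · rw [Filter.eventually_atTop]
      refine ⟨0, fun H _ => ?_⟩
      refine div_le_one_of_le₀ ?_ (Nat.cast_nonneg _)
      have : count H (fun m n => Good k m n ∧ (φ (curve m n k)).Dom) ≤ count H (Good k) :=
        count_le fun m n h => h.1
      exact_mod_cast this

end Pool.Agent.Results.MP_d6ddbd_nt.FixedProduct
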