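import Pool.Agent.H14Q.Alg
import Pool.Agent.H14Q.Low1
import Pool.Agent.H85G.F
import Pool.Agent.H85P.GEN
import Pool.Agent.H85P.CER
import Pool.Agent.H85P.GIB
import Pool.Agent.H85P.INT
import Pool.Agent.H85P.TK
import Pool.Agent.H85P.MQ
import Pool.Agent.H85P.GP
import Pool.Agent.H85P.OR

/-!
# Infinitude of rational points is decided for 100% of each one-parameter family `(x² - m)(y² - n) = k`, `n`, `k` fixed

There is one partial computable function `φ` on the polynomials `f(x, y)` with integer coefficients which answers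
correctly, whenever it halts, whether `f(x, y) = 0` has infinitely many rational solutions, with the following property. Let
`k ≠ 0` and `n` be ANY fixed integers such that `g n` is not a square for the divisors `g` of `k`. Then `φ` halts on the genus
one curve `(x² - m)(y² - n) = k` for almost all members `m` of every family of integers which is well distributed modulo
the integers up to `z²` without small prime factors: the proportion of the exceptions is `O(1 / log log z)`. For instance:

* for all but `C H / log log H` of the `m` in every interval `(M, M + H]`, uniformly in `M`;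
* for `m = c + κ v`, `v < b ^ K` a random integer whose digits in base `b` form a Gibbs measure with interactions of
  unbounded range and an arbitrary Markov random field of bounded degree as a priori measure, with probability
  `1 - O(1 / log K)`, uniformly in `c`. Such measures can be concentrated on very sparse sets of integers.

On these curves `φ` proves that there are no rational solutions, and the Brauer-Manin sets of the curves
`Y² = (F² - m)(n F² - n m + k)`, `F ∈ ℤ[x]` not constant, are empty for the same `m` (for `F = x` this curve is birational to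
`(x² - m)(y² - n) = k`). If moreover `n ≥ 1` is not a square and `n ≡ 1` modulo
`8 k`, then for ALL `m ≠ 0` coprime to `n` the curve is smooth of genus one and has points over `ℝ` and over all fields `ℚ_p`.
So the Hasse principle fails for 100% of the curves of each of these families with one parameter.

The result `FixedProduct` is about the averages over both `m` and `n` in a box, so it says nothing about a given `n`, nor
about sparse sets of `m`.

Proof. If a prime `q` divides `n m - k` exactly once and `g n` is not a square modulo `q`, then the covering of the curve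
which belongs to the factorisation `k = g h` has an obstruction modulo `q²` (files `H14Q`). The number of these `q ≤ z` has the
mean `∼ c log log z` (Mertens' theorem in a class of primes modulo which `g n` is not a residue) and a small variance. For
the Gibbs measures the distribution modulo `d ≤ exp (c √K)` follows from the bound for exponential sums in `Pool.Agent.H85G`
and a count of the positions at which the fraction `h / d` has a digit which is not extremal.

The parts were written by the seats helper4, helper36, helper54, helper74 and helper85; the algorithm and the criteria by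
helper14 and others (`H14Q`).
-/

set_option autoImplicit false

namespace Pool.Agent.Results.MP_d6ddbd_nt.OneParameterFamilies

open Finset
open Polynomial (C X)
open scoped Polynomial
open Pool.Agent.W313.BMX
open scoped Classical

/-- the set `Z_f(ℚ)` of the rational zeros of `f = ∑ L_(i,j) x^i y^j` -/
def Zeros (L : List (List ℤ)) : Set (ℚ × ℚ) := {p : ℚ × ℚ |
  ∑ i ∈ Finset.range L.length, ∑ j ∈ Finset.range (L.getD i []).length,
    (((L.getD i []).getD j 0 : ℤ) : ℚ) * p.1 ^ i * p.2 ^ j = 0}

/-- the polynomial `(x² - m)(y² - n) - k` -/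
def curve (m n k : ℤ) : List (List ℤ) := [[m * n - k, 0, -m], [], [-n, 0, 1]]

/-- `(x² - m)(y² - n) = k` has a solution in the field `F` -/
def Soluble (m n k : ℤ) (F : Type) [Field F] : Prop :=
  ∃ x y : F, (x ^ 2 - (m : F)) * (y ^ 2 - (n : F)) = (k : F)

/-- `(x² - m)(y² - n) = k` has solutions in `ℝ` and in `ℚ_p` for all primes `p` -/
def LocallySoluble (m n k : ℤ) : Prop :=
  Soluble m n k ℝ ∧ ∀ (p : ℕ) [Fact p.Prime], Soluble m n k ℚ_[p]

/-- `(x² - m)(y² - n) = k` is everywhere locally soluble and is a smooth curve of genus one -/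
def Good (k m n : ℤ) : Prop := LocallySoluble m n k ∧ m * n ≠ 0 ∧ m * n ≠ k

/-- the polynomials `F² - m` and `n F² - (n m - k)`; for `F = x` the curve `Y² = (x² - m)(n x² - (n m - k))` is birational
to `(x² - m)(y² - n) = k` by `Y = (x² - m) y` -/
noncomputable def factors (F : ℤ[X]) (m n k : ℤ) : Fin 2 → ℤ[X] := ![F ^ 2 - C m, C n * F ^ 2 - C (n * m - k)]

/-- Every adelic point of the curve `Y² = (F(x)² - m)(n F(x)² - n m + k)` is obstructed by one of the classes
`(F(x)² - m, e)` of the Brauer group: the number of the places at which the value of the class is not trivial is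
odd (and finite), the sum of the invariants is `1/2`. -/
def Obstructed (F : ℤ[X]) (m n k : ℤ) : Prop :=
  ∀ P : AdelicPoint (factors F m n k) 1, ∃ e : ℤ, e ≠ 0 ∧ Odd (ram (values P 0) e).ncard

/-- The finite family of integers `x i`, `i ∈ Ω`, with the probabilities `w i`, is distributed modulo each `d ≤ z²` all prime
factors of which are larger than `W` with an error of at most `1 / z²`. -/
def Distributed {ι : Type} (W z : ℕ) (Ω : Finset ι) (w : ι → ℝ) (x : ι → ℤ) : Prop :=
  (∀ i ∈ Ω, 0 ≤ w i) ∧ ∑ i ∈ Ω, w i = 1 ∧ ∀ d : ℕ, 2 ≤ d → d ≤ z ^ 2 → (∀ ℓ : ℕ, ℓ.Prime → ℓ ∣ d → W < ℓ) →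
    ∀ a : ℤ, |∑ i ∈ Ω.filter (fun i => (d : ℤ) ∣ x i - a), w i - 1 / d| ≤ 1 / (z : ℝ) ^ 2

/-- The digit of `v` at the position `i` in base `b` (the position `0` is the least significant one). -/
def dig (b v i : ℕ) : ℕ := v / b ^ i % b

/-- The integer which has the digits of `v` at the positions in `S` and the digits of `w` at the other positions below `k`. -/
def splice (b k : ℕ) (S : Finset ℕ) (v w : ℕ) : ℕ := ∑ i ∈ range k, (if i ∈ S then dig b v i else dig b w i) * b ^ i

/-- `v` and `w` have the same digits outside the set `S` of positions. -/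
def Off (b : ℕ) (S : Finset ℕ) (v w : ℕ) : Prop := ∀ i, i ∉ S → dig b v i = dig b w i

/-- The closed neighbourhood of the position `i` in the graph `A` on the positions `0, …, k - 1`. -/
noncomputable def nb (k : ℕ) (A : ℕ → ℕ → Prop) (i : ℕ) : Finset ℕ := (range k).filter fun j => j = i ∨ A i j

/-- The total weight of the integers below `b ^ k` which have the same digits as `v` outside `S`. -/
noncomputable def mass (b k : ℕ) (q : ℕ → ℝ) (S : Finset ℕ) (v : ℕ) : ℝ :=
  ∑ w ∈ (range (b ^ k)).filter (fun w => Off b S w v), q w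

/-- The a priori measure: the digits of a random integer `v < b ^ k` (with the probabilities `q v`) form a Markov random
field on a graph `A` of positions with degrees at most `Δ` (for every set `S` of positions and all `v`, `w` which have the
same digits at the positions outside `S` adjacent to `S`, the product `q v * q w` does not change if `v` and `w` exchange
their digits in `S`), and each digit is flexible: for every `v` with `q v ≠ 0` and every position `i`, there are `x` and `y`
which have the same digits as `v` outside the closed neighbourhood of `i`, which differ from each other exactly at the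
position `i`, and whose conditional probabilities, given the digits outside this neighbourhood, are at least `η`. (For
instance, with `Δ = 0`: independent digits, each of which has at least two values with probabilities at least `η`.) -/
structure RandomField (b k Δ : ℕ) (η : ℝ) (A : ℕ → ℕ → Prop) (q : ℕ → ℝ) : Prop where
  symm : ∀ i j, A i j → A j i
  degree : ∀ i < k, (nb k A i).card ≤ Δ + 1
  nonneg : ∀ v, 0 ≤ q v
  sum : ∑ v ∈ range (b ^ k), q v = 1
  markov : ∀ S : Finset ℕ, ∀ v < b ^ k, ∀ w < b ^ k, (∀ i ∈ S, ∀ j < k, j ∉ S → A i j → dig b v j = dig b w j) →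
    q v * q w = q (splice b k S v w) * q (splice b k S w v)
  flexible : ∀ v < b ^ k, q v ≠ 0 → ∀ i < k, ∃ x < b ^ k, ∃ y < b ^ k, Off b (nb k A i) x v ∧ Off b {i} y x ∧
    dig b y i ≠ dig b x i ∧ η * mass b k q (nb k A i) v ≤ q x ∧ η * mass b k q (nb k A i) v ≤ q y

/-- The interactions `φ X`, for all sets `X ⊆ {0, …, k - 1}` of positions: `φ X v` depends only on the digits of `v` at the
positions in `X`, its absolute value is at most `N X`, and for each position `i` the sum of `exp (r * |X|) * N X` over the
sets `X` which contain `i` is at most `M`. (For instance, pair interactions `φ {i, j}` with `∑ j, N {i, j} ≤ exp (- 2 r) M`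
for all `i`, at arbitrary distances.) -/
structure Interaction (b k : ℕ) (M r : ℝ) (φ : Finset ℕ → ℕ → ℝ) (N : Finset ℕ → ℝ) : Prop where
  depends : ∀ X ⊆ range k, ∀ v < b ^ k, ∀ w < b ^ k, (∀ i ∈ X, dig b v i = dig b w i) → φ X v = φ X w
  bound : ∀ X ⊆ range k, ∀ v < b ^ k, |φ X v| ≤ N X
  summable : ∀ i < k, ∑ X ∈ (range k).powerset.filter (fun X => i ∈ X), Real.exp (r * X.card) * N X ≤ M

/-- The Gibbs weight: the a priori weight times the exponential of the sum of all the interactions. -/
noncomputable def weight (k : ℕ) (q : ℕ → ℝ) (φ : Finset ℕ → ℕ → ℝ) (v : ℕ) : ℝ :=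
  q v * Real.exp (∑ X ∈ (range k).powerset, φ X v)

/-- The Gibbs measure: the probability of `v < b ^ k`. -/
noncomputable def gibbs (b k : ℕ) (q : ℕ → ℝ) (φ : Finset ℕ → ℕ → ℝ) (v : ℕ) : ℝ :=
  weight k q φ v / ∑ w ∈ range (b ^ k), weight k q φ w

lemma field_conv {b k Δ : ℕ} {η : ℝ} {A : ℕ → ℕ → Prop} {q : ℕ → ℝ} (h : RandomField b k Δ η A q) :
    Pool.Agent.N213.GF.Field b k Δ η A q :=
  ⟨h.symm, h.degree, h.nonneg, h.sum, h.markov, h.flexible⟩

lemma inter_conv {b k : ℕ} {M r : ℝ} {φ : Finset ℕ → ℕ → ℝ} {N : Finset ℕ → ℝ} (hb : 2 ≤ b) (h : Interaction b k M r φ N) :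
    Pool.Agent.H85G.Inter b k (max M 0) r (fun X v => if X ⊆ range k then φ X v else 0)
      (fun X => if X ⊆ range k then N X else 0) := by
  have h0 : ∀ X ⊆ range k, 0 ≤ N X := by
    intro X hX
    exact (abs_nonneg _).trans (h.bound X hX 0 (by positivity))
  refine ⟨?_, ?_, ?_, ?_⟩
  · intro X v hv w hw hvw
    split_ifs with hX
    · exact h.depends X hX v hv w hw hvw
    · rfl
  · intro X v hv
    split_ifs with hX
    · exact h.bound X hX v hv
    · rw [abs_zero]
  · intro X
    split_ifs with hX
    · exact h0 X hX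
    · exact le_rfl
  · intro i hi
    refine le_trans (le_of_eq ?_) ((h.summable i hi).trans (le_max_left _ _))
    apply sum_congr rfl
    intro X hX
    rw [mem_filter, mem_powerset] at hX
    beta_reduce
    rw [if_pos hX.1]

lemma energy_conv {k : ℕ} (φ : Finset ℕ → ℕ → ℝ) (v : ℕ) :
    Pool.Agent.H85G.energy k (fun X v => if X ⊆ range k then φ X v else 0) v = ∑ X ∈ (range k).powerset, φ X v := by
  unfold Pool.Agent.H85G.energy
  apply sum_congr rfl
  intro X hX
  beta_reduce
  rw [if_pos (mem_powerset.1 hX)]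

lemma gt_conv {b k Δ : ℕ} (hb : 2 ≤ b) {η M r : ℝ} {A : ℕ → ℕ → Prop} {q : ℕ → ℝ} {φ : Finset ℕ → ℕ → ℝ} {N : Finset ℕ → ℝ}
    (hq : RandomField b k Δ η A q) (hφ : Interaction b k M r φ N) :
    Pool.Agent.H85G.GT b Δ η (max M 0) r k (gibbs b k q φ) := by
  refine ⟨A, q, _, _, field_conv hq, inter_conv hb hφ, ?_⟩
  funext v
  unfold gibbs weight Pool.Agent.H85G.gibbs
  simp only [energy_conv]

theorem zeros_curve (m n k : ℤ) (p : ℚ × ℚ) :
    p ∈ Zeros (curve m n k) ↔ (p.1 ^ 2 - m) * (p.2 ^ 2 - n) = k := by
  unfold Zeros curve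
  simp only [Set.mem_ofPred_eq, List.length_cons, List.length_nil, Finset.sum_range_succ,
    Finset.sum_range_zero, List.getD_cons_zero, List.getD_cons_succ, List.getD_nil]
  push_cast
  constructor
  · intro h
    linear_combination h
  · intro h
    linear_combination h

theorem not_square_mul {k n : ℤ} (hk : k ≠ 0) (hn : 1 ≤ n) (h8 : 8 * k ∣ n - 1) (hsq : ¬ IsSquare n) (g : ℤ)
    (hg : g ∣ k) : ¬ IsSquare (g * n) := by
  rintro ⟨s, hs⟩
  have hg0 : g ≠ 0 := by
    rintro rfl
    exact hk (zero_dvd_iff.1 hg)
  have hcop : IsCoprime n g := by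
    have h1 : g ∣ n - 1 := hg.trans ((dvd_mul_left k 8).trans h8)
    obtain ⟨c, hc⟩ := h1
    exact ⟨1, -c, by linarith⟩
  obtain ⟨a, ha⟩ := Int.sq_of_isCoprime hcop (show n * g = s ^ 2 by rw [mul_comm, hs, sq])
  rcases ha with ha | ha
  · exact hsq ⟨a, by rw [ha, sq]⟩
  · have := sq_nonneg a
    omega

theorem good_of {k n : ℤ} (hn : 1 ≤ n) (h8 : 8 * k ∣ n - 1) (hsq : ¬ IsSquare n) {m : ℤ} (hm : m ≠ 0)
    (hc : IsCoprime m n) : Good k m n := by
  have hkn : k ∣ n - 1 := (dvd_mul_left k 8).trans h8
  refine ⟨?_, mul_ne_zero hm (by omega), ?_⟩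
  · have h : Pool.Agent.H14Q.ELS m n k := by
      refine Pool.Agent.H14Q.els hn ?_ ?_ ?_
      · have : (8 : ℤ) ∣ n - 1 := (dvd_mul_right 8 k).trans h8
        omega
      · intro q hq hq2 hqk
        left
        have : Fact q.Prime := ⟨hq⟩
        have h5 : (q : ℤ) ∣ n - 1 := hqk.trans hkn
        have h6 : ((n : ℤ) : ZMod q) = 1 := by
          have h7 := (ZMod.intCast_zmod_eq_zero_iff_dvd (n - 1) q).2 h5
          push_cast at h7
          linear_combination h7
        refine ⟨?_, ?_⟩
        · rw [← ZMod.intCast_zmod_eq_zero_iff_dvd, h6]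
          exact one_ne_zero
        · rw [h6]
          exact IsSquare.one
      · rintro q hq - ⟨h5, h6⟩
        have h7 := hc.isUnit_of_dvd' h5 h6
        rw [Int.isUnit_iff] at h7
        have := hq.two_le
        omega
    exact h
  · intro h
    have h1 : n ∣ n - 1 := (Dvd.intro_left m h).trans hkn
    have h2 : n ∣ 1 := by
      have := dvd_sub (dvd_refl n) h1
      rwa [sub_sub_cancel] at this
    have h3 : n = 1 := by
      have := Int.le_of_dvd one_pos h2
      omega
    exact hsq ⟨1, by rw [h3, mul_one]⟩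

/-- **Theorem.** There is a partial computable function `φ` from the lists of lists of integers (polynomials `f(x, y)`) to
`{true, false}` such that
(1) if `φ(f)` is defined, it is `true` if and only if `f` has infinitely many rational zeros;
(2) if `φ` is defined at `(x² - m)(y² - n) - k`, this polynomial has no rational zero;
(3) let `k ≠ 0` and `n` be integers such that `g n` is not a square for all the divisors `g` of `k`. Then there is a set `E`
  of integers such that for all `m` not in `E` the function `φ` is defined at `(x² - m)(y² - n) - k`, and for all nonconstant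
  `F ∈ ℤ[x]` every adelic point of the curve `Y² = (F² - m)(n F² - n m + k)` is obstructed by a class `(F² - m, e)`, and
  (a) for each `W` there are `B`, `z₀` such that for all `z ≥ z₀` and all finite families of integers which are distributed
  modulo the `d ≤ z²` without prime factors up to `W` with an error of at most `1 / z²`, the proportion of the members in
  `E` is at most `B / log log z`;
  (b) there are `B`, `H₀` such that for all integers `M` and all `H ≥ H₀` at most `B H / log log H` of the `m` in
  `(M, M + H]` are in `E`;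
  (c) for all `b ≥ 2`, `Δ`, `η > 0`, `J`, `ρ > 0` and `κ ≠ 0` there are `B`, `K₀` such that for all `K ≥ K₀` and all `c`
  the number `c + κ v` is in `E` with a probability of at most `B / log K`, if `v < b ^ K` is a random integer
  the digits of which have the Gibbs distribution of an arbitrary interaction which is summable at each position (with the
  bound `J`), with respect to an arbitrary Markov random field with flexible digits on a graph of positions with degrees at
  most `Δ`;
(4) if `k ≠ 0`, `n ≥ 1`, `n ≡ 1` modulo `8 k` and `n` is not a square, then `n` and `k` are as in (3), and for all `m ≠ 0`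
coprime to `n` the curve `(x² - m)(y² - n) = k` is smooth of genus one and everywhere locally soluble. -/
theorem result :
    ∃ φ : List (List ℤ) →. Bool, Partrec φ ∧
    (∀ L, ∀ r ∈ φ L, (r = true ↔ (Zeros L).Infinite)) ∧
    (∀ m n k : ℤ, (φ (curve m n k)).Dom → Zeros (curve m n k) = ∅) ∧
    (∀ k n : ℤ, k ≠ 0 → (∀ g : ℤ, g ∣ k → ¬ IsSquare (g * n)) → ∃ E : Set ℤ,
      (∀ m : ℤ, m ∉ E → (φ (curve m n k)).Dom ∧ ∀ F : ℤ[X], 1 ≤ F.natDegree → Obstructed F m n k) ∧
      (∀ W : ℕ, ∃ (B : ℝ) (z₀ : ℕ), ∀ z : ℕ, z₀ ≤ z →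
        ∀ (ι : Type) (Ω : Finset ι) (w : ι → ℝ) (x : ι → ℤ), Distributed W z Ω w x →
          ∑ i ∈ Ω.filter (fun i => x i ∈ E), w i ≤ B / Real.log (Real.log z)) ∧
      (∃ (B : ℝ) (H₀ : ℕ), ∀ (M : ℤ) (H : ℕ), H₀ ≤ H →
        (((Ioc M (M + H)).filter fun m : ℤ => m ∈ E).card : ℝ) ≤ B * H / Real.log (Real.log H)) ∧
      ∀ b Δ : ℕ, 2 ≤ b → ∀ η J ρ : ℝ, 0 < η → 0 < ρ → ∀ κ : ℤ, κ ≠ 0 → ∃ (B : ℝ) (K₀ : ℕ), ∀ K : ℕ, K₀ ≤ K → ∀ c : ℤ,
        ∀ (A : ℕ → ℕ → Prop) (q : ℕ → ℝ), RandomField b K Δ η A q →
        ∀ (ψ : Finset ℕ → ℕ → ℝ) (N : Finset ℕ → ℝ), Interaction b K J ρ ψ N →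
          ∑ v ∈ (range (b ^ K)).filter (fun v => c + κ * (v : ℕ) ∈ E), gibbs b K q ψ v ≤ B / Real.log K) ∧
    (∀ k n : ℤ, k ≠ 0 → 1 ≤ n → 8 * k ∣ n - 1 → ¬ IsSquare n →
      (∀ g : ℤ, g ∣ k → ¬ IsSquare (g * n)) ∧ ∀ m : ℤ, m ≠ 0 → IsCoprime m n → Good k m n) := by
  obtain ⟨φ, hφ, htrue, hfalse⟩ := Pool.Agent.H14Q.exists_alg
  have hdom : ∀ m n k : ℤ, (φ (curve m n k)).Dom ↔ Pool.Agent.H14Q.Cert m n k := by
    intro m n k
    rw [Part.dom_iff_mem]
    constructor
    · rintro ⟨r, hr⟩
      cases r with
      | true => exact absurd hr (htrue _)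
      | false =>
        obtain ⟨m', n', k', e, hc⟩ := (hfalse _).1 hr
        obtain ⟨rfl, rfl, rfl⟩ := Pool.Agent.H14Q.curve_inj (e : Pool.Agent.H14Q.curve m n k = _)
        exact hc
    · intro hc
      exact ⟨false, (hfalse _).2 ⟨m, n, k, rfl, hc⟩⟩
  have hempty : ∀ m n k : ℤ, (φ (curve m n k)).Dom → Zeros (curve m n k) = ∅ := by
    intro m n k h
    rw [Set.eq_empty_iff_forall_notMem]
    intro p hp
    exact ((hdom m n k).1 h).no_zero p.1 p.2 ((zeros_curve m n k p).1 hp)
  have hgen := fun (n k : ℤ) (hk : k ≠ 0) (hn : ∀ g : ℤ, g ∣ k → ¬ IsSquare (g * n)) (W : ℕ) =>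
    Pool.Agent.H85P.gen Pool.Agent.H85P.TK_holds Pool.Agent.H85P.MQ_holds n k hk hn W
  refine ⟨φ, hφ, ?_, hempty, fun k n hk hn => ⟨{m | ¬ Pool.Agent.H85P.SC n k m}, fun m hm => ?_, fun W => ?_, ?_, ?_⟩,
    fun k n hk hn1 h8 hsq => ⟨not_square_mul hk hn1 h8 hsq, fun m hm hc => good_of hn1 h8 hsq hm hc⟩⟩
  · intro L r hr
    cases r with
    | true => exact absurd hr (htrue _)
    | false =>
      obtain ⟨m, n, k, rfl, hc⟩ := (hfalse _).1 hr
      have h : Zeros (curve m n k) = ∅ := hempty m n k ((hdom m n k).2 hc)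
      have h' : Zeros (Pool.Agent.H14Q.curve m n k) = ∅ := h
      rw [h']
      simp
  · have hsc : Pool.Agent.H85P.SC n k m := by
      simpa only [Set.mem_ofPred_eq, not_not] using hm
    have hn0 : n ≠ 0 := by
      rintro rfl
      exact hn 1 (one_dvd k) ⟨0, by simp⟩
    exact ⟨(hdom m n k).2 (hsc.cert hk), fun F hF P => hsc.bm hk hn0 F hF _ rfl P⟩
  · obtain ⟨B, z₀, -, -, h⟩ := hgen n k hk hn W
    refine ⟨B, z₀, fun z hz ι Ω w x hD => le_trans (le_of_eq ?_) (h z hz ι Ω w x hD)⟩
    exact sum_congr (Finset.ext fun i => by simp only [mem_filter, Set.mem_ofPred_eq]) fun _ _ => rfl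
  · obtain ⟨B, z₀, hB, -, h⟩ := hgen n k hk hn 0
    obtain ⟨H₀, hH16, hgrow⟩ := Pool.Agent.H85P.grow_int z₀
    refine ⟨2 * B, H₀, fun M H hH => ?_⟩
    obtain ⟨h1, h2, h3⟩ := hgrow H hH
    have hH1 : 1 ≤ H := by omega
    have hHr : (0 : ℝ) < H := by exact_mod_cast (by omega : 0 < H)
    have h4 := h (Nat.sqrt H) h1 ℤ (Ioc M (M + H)) (fun _ => 1 / (H : ℝ)) (fun x => x)
      (Pool.Agent.H85P.int_lev 0 M H (Nat.sqrt H) hH1 (Nat.sqrt_le' H))
    rw [sum_const, nsmul_eq_mul] at h4
    have h5 : B / Real.log (Real.log (Nat.sqrt H)) ≤ 2 * B / Real.log (Real.log H) := by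
      have h6 : B / Real.log (Real.log (Nat.sqrt H)) ≤ B / (Real.log (Real.log H) / 2) :=
        div_le_div_of_nonneg_left hB (by linarith) h3
      refine h6.trans (le_of_eq ?_)
      field_simp
    have h7 := mul_le_mul_of_nonneg_right (h4.trans h5) hHr.le
    have e1 : ((((Ioc M (M + H)).filter fun i : ℤ => ¬ Pool.Agent.H85P.SC n k i).card : ℝ)) * (1 / (H : ℝ)) * H =
        (((Ioc M (M + H)).filter fun i : ℤ => ¬ Pool.Agent.H85P.SC n k i).card : ℝ) := by
      field_simp
    rw [e1] at h7
    refine le_trans (le_of_eq ?_) (h7.trans (le_of_eq ?_))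
    · exact congrArg _ (congrArg Finset.card (Finset.ext fun i => by simp only [mem_filter, Set.mem_ofPred_eq]))
    · ring
  · intro b Δ hb η J ρ hη hρ κ hκ
    have hG := Pool.Agent.H85G.gt_good b Δ hb η (max J 0) ρ hη (le_max_right _ _) hρ
    obtain ⟨R, hR, hgib⟩ := Pool.Agent.H85P.gib Pool.Agent.H85P.GP_holds Pool.Agent.H85P.OR_holds hb hG κ hκ
    obtain ⟨B, z₀, hB, -, h⟩ := hgen n k hk hn (max b κ.natAbs)
    obtain ⟨K₀, hK2, hgrow⟩ := Pool.Agent.H85P.grow_dig b R z₀ hb hR
    refine ⟨6 * B, K₀, fun K hK c A q hq ψ N hψ => ?_⟩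
    obtain ⟨t, ht1, htK, htz, hlog, h3⟩ := hgrow K hK
    have h4 := h (b ^ t) htz ℕ (range (b ^ K)) (gibbs b K q ψ) (fun v => c + κ * (v : ℕ))
      (hgib K _ (gt_conv hb hq hψ) c t ht1 htK)
    refine le_trans (le_of_eq ?_) (h4.trans ?_)
    · exact sum_congr (Finset.ext fun i => by simp only [mem_filter, Set.mem_ofPred_eq]) fun _ _ => rfl
    have h6 : B / Real.log (Real.log ((b ^ t : ℕ) : ℝ)) ≤ B / (Real.log K / 6) :=
      div_le_div_of_nonneg_left hB (by linarith) h3
    refine h6.trans (le_of_eq ?_)
    field_simp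

end Pool.Agent.Results.MP_d6ddbd_nt.OneParameterFamilies
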